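import Mathlib
import Pool.Agent.Helper676.TL.Final

set_option autoImplicit false

namespace Pool.Agent.Results.MP_49383f_gt.NotAnnulus

open Set
open scoped ContDiff

/-- On the open set `V ⊆ ℂ = ℝ²`, the map `φ` is a smooth immersion into `ℝ³` with constant mean
curvature `H`: there is a smooth unit normal field `n` along `φ` whose shape operator `S`, defined
by `dn = - dφ ∘ S`, has trace `2 H` at every point of `V`. -/
def CmcImmersion (φ : ℂ → EuclideanSpace ℝ (Fin 3)) (V : Set ℂ) (H : ℝ) : Prop :=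
  ContDiffOn ℝ ∞ φ V ∧ (∀ w ∈ V, Function.Injective (fderiv ℝ φ w)) ∧
    ∃ n : ℂ → EuclideanSpace ℝ (Fin 3), ContDiffOn ℝ ∞ n V ∧ ∀ w ∈ V, ‖n w‖ = 1 ∧
      (∀ v : ℂ, inner ℝ (fderiv ℝ φ w v) (n w) = 0) ∧
        ∃ S : ℂ →L[ℝ] ℂ, (∀ v : ℂ, fderiv ℝ n w v = - fderiv ℝ φ w (S v)) ∧
          LinearMap.trace ℝ ℂ (S : ℂ →ₗ[ℝ] ℂ) = 2 * H

/-- The subset `S` of `ℝ³` is a smooth embedded surface whose boundary is exactly `C`, and it has
constant mean curvature `H`: every point of `S` has an open neighbourhood `U` in `ℝ³` in which `S`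
is the image of `{ρ ≥ 0}` and `C` the image of `{ρ = 0}` under a smooth immersion `φ : V → ℝ³` of
constant mean curvature `H` which is a homeomorphism onto its image, where `V ⊆ ℝ²` is open and
`ρ : V → ℝ` is smooth with nonzero differential wherever it vanishes (so `{ρ ≥ 0}` is a smooth
domain with boundary `{ρ = 0}`, possibly empty). For `H ≠ 0` the local unit normals are determined
by `H` (the mean curvature vector is `H n`), so they fit together to a global unit normal. -/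
def IsCmcSurface (S C : Set (EuclideanSpace ℝ (Fin 3))) (H : ℝ) : Prop :=
  C ⊆ S ∧ ∀ p ∈ S, ∃ (U : Set (EuclideanSpace ℝ (Fin 3))) (V : Set ℂ)
      (φ : ℂ → EuclideanSpace ℝ (Fin 3)) (ρ : ℂ → ℝ),
    IsOpen U ∧ p ∈ U ∧ IsOpen V ∧ CmcImmersion φ V H ∧
    Topology.IsEmbedding (fun w : V => φ w) ∧
    ContDiffOn ℝ ∞ ρ V ∧ (∀ w ∈ V, ρ w = 0 → fderiv ℝ ρ w ≠ 0) ∧
    S ∩ U = φ '' {w | w ∈ V ∧ 0 ≤ ρ w} ∧ C ∩ U = φ '' {w | w ∈ V ∧ ρ w = 0}

/-- `C` is a convex curve in the plane `{x₃ = c}`: a smooth regular simple closed curve (with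
`2π`-periodic parametrisation `γ`) which bounds a compact convex set `K` with interior points. -/
def IsConvexCurve (C : Set (EuclideanSpace ℝ (Fin 3))) (c : ℝ) : Prop :=
  ∃ (K : Set ℂ) (γ : ℝ → ℂ), Convex ℝ K ∧ IsCompact K ∧ (interior K).Nonempty ∧
    ContDiff ℝ ∞ γ ∧ (∀ θ, γ (θ + 2 * Real.pi) = γ θ) ∧ InjOn γ (Ico 0 (2 * Real.pi)) ∧
    (∀ θ, deriv γ θ ≠ 0) ∧ range γ = frontier K ∧
    C = {x : EuclideanSpace ℝ (Fin 3) | x 2 = c ∧ (⟨x 0, x 1⟩ : ℂ) ∈ frontier K}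

/-- **Theorem (negative answer to Q1).** There are convex curves `C₁`, `C₂` in two distinct
parallel planes `{x₃ = c₁}`, `{x₃ = c₂}` and a compact connected embedded surface `S` of constant
mean curvature `H ≠ 0` with boundary exactly `C₁ ∪ C₂` which is not homeomorphic to the annulus
`S¹ × [0,1]`. -/
theorem result : ∃ (C₁ C₂ S : Set (EuclideanSpace ℝ (Fin 3))) (c₁ c₂ H : ℝ), c₁ ≠ c₂ ∧
    IsConvexCurve C₁ c₁ ∧ IsConvexCurve C₂ c₂ ∧ H ≠ 0 ∧ IsCompact S ∧ IsConnected S ∧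
    IsCmcSurface S (C₁ ∪ C₂) H ∧ ¬ Nonempty (S ≃ₜ (Circle × unitInterval)) :=
  Pool.Agent.Helper676.TL.final_all

end Pool.Agent.Results.MP_49383f_gt.NotAnnulus
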